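import Pool.Agent.H24R3.TupShort3

/-!
# Tuples of zeta zeros in boxes that avoid the diagonals, in every short interval

Assume the Riemann hypothesis.  For `0 < h ≤ 1` put `c h = R0 / h + h (cMT⁻¹ - R0)` and, for
`0 < ρ ≤ 1 / (3 h)`, `p h ρ = 1 - (c h - 1) / K(h ρ)²`, with the Montgomery-Taylor constant `cMT`
and kernel `K`.  Let `k = r + 1 ≥ 2` and let the box `B` contain `[α, β]^r`, `α > 0`.  The number
of `k`-tuples of distinct zeros with ordinates in `(T, T + H]` and normalised differences in `B`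
is at least `r! (p h ρ - (r - 1 + ⌈α / ρ⌉) / β - ε) (H / 2π) log T`, uniformly for
`T ^ h ≤ H ≤ T`; and `N_k(T; B) ≫ T log T` whenever `β > 2 (r - 1 + ⌈3 α⌉)`.
-/

open Filter Topology

namespace Pool.Agent.Results.MP_67227b_nt.BoxesOffDiagonal

/-- multiplicity of `s` as a zero of the Riemann zeta function (order of vanishing at `s`) -/
noncomputable def zmult (s : ℂ) : ℕ := analyticOrderNatAt riemannZeta s

/-- the number of nontrivial zeros of `ζ` with ordinate in `(0, t]`, with multiplicity -/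
noncomputable def NZ (t : ℝ) : ℕ :=
  ∑ᶠ s ∈ {s : ℂ | riemannZeta s = 0 ∧ 0 < s.re ∧ s.re < 1 ∧ 0 < s.im ∧ s.im ≤ t}, zmult s

/-- for `n ≥ 1`: the `n`-th positive ordinate `γ n` of a nontrivial zero of `ζ`, the ordinates being
listed in nondecreasing order and repeated according to multiplicity -/
noncomputable def γ (n : ℕ) : ℝ := sInf {t : ℝ | n ≤ NZ t}

/-- `N_k(T; B)` with `k = r + 1` and `B = ∏ [a_i, b_i]`: the number of `k`-tuples of pairwise
distinct indices with ordinates at most `T` whose normalised differences with the last ordinate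
lie in the box `B` -/
noncomputable def Nk (r : ℕ) (T : ℝ) (a b : Fin r → ℝ) : ℕ :=
  {j : Fin (r + 1) → ℕ | Function.Injective j ∧ (∀ i, 1 ≤ j i ∧ γ (j i) ≤ T) ∧
    ∀ i : Fin r, (γ (j i.castSucc) - γ (j (Fin.last r))) * (Real.log T / (2 * Real.pi)) ∈
      Set.Icc (a i) (b i)}.ncard

/-- the same for the ordinates in `(T, T + H]`, normalised with `log T` -/
noncomputable def Ns (r : ℕ) (T H : ℝ) (a b : Fin r → ℝ) : ℕ :=
  {j : Fin (r + 1) → ℕ | Function.Injective j ∧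
    (∀ i, 1 ≤ j i ∧ T < γ (j i) ∧ γ (j i) ≤ T + H) ∧
    ∀ i : Fin r, (γ (j i.castSucc) - γ (j (Fin.last r))) * (Real.log T / (2 * Real.pi)) ∈
      Set.Icc (a i) (b i)}.ncard

/-- the Montgomery-Taylor kernel -/
noncomputable def K (r : ℝ) : ℝ :=
  (∫ t in (-1 / 2 : ℝ)..(1 / 2), Real.cos (Real.sqrt 2 * t) * Real.cos (2 * Real.pi * r * t)) /
    (Real.sqrt 2 * Real.sin (1 / Real.sqrt 2))

/-- the Montgomery-Taylor constant -/
noncomputable def cMT : ℝ :=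
  Real.sqrt 2 * Real.tan (1 / Real.sqrt 2) / (1 + Real.tan (1 / Real.sqrt 2) / Real.sqrt 2)

/-- the mean square of the Montgomery-Taylor window, `1.0062...` -/
noncomputable def R0 : ℝ :=
  (1 + Real.sin (Real.sqrt 2) / Real.sqrt 2) / (4 * Real.sin (1 / Real.sqrt 2) ^ 2)

/-- the constant for intervals of length `T^h`; `c 1 = cMT⁻¹ = 1.3274...` -/
noncomputable def c (h : ℝ) : ℝ := R0 / h + h * (cMT⁻¹ - R0)

/-- the lower bound for the proportion of the zeros without a zero within `ρ` mean spacings -/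
noncomputable def p (h ρ : ℝ) : ℝ := 1 - (c h - 1) / K (h * ρ) ^ 2

/-- the sets of tuples that are counted are finite -/
theorem finite_Nk (r : ℕ) (T : ℝ) (a b : Fin r → ℝ) :
    {j : Fin (r + 1) → ℕ | Function.Injective j ∧ (∀ i, 1 ≤ j i ∧ γ (j i) ≤ T) ∧
    ∀ i : Fin r, (γ (j i.castSucc) - γ (j (Fin.last r))) * (Real.log T / (2 * Real.pi)) ∈
      Set.Icc (a i) (b i)}.Finite :=
  (Set.Finite.pi' (fun _ : Fin (r + 1) => Pool.Agent.H24R3.TupShort.idx0_finite T)).subset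
    fun j hj i => hj.2.1 i

theorem K_eq (r : ℝ) : K r = H344.KK r := by
  have h := H370.GramAux.kap_re_mul (2 * Real.pi * r)
  have hd := H370.GramAux.den_pos.ne'
  unfold K H344.KK
  rw [← h, mul_div_cancel_left₀ _ hd]

theorem c_eq {h : ℝ} (hh : 0 < h) : c h = H295Iso.c0 h := by
  have h1 : cMT⁻¹ = H370.cMTinv := H370.cMTinv_eq
  have h2 := H228SI.constS 1 one_pos le_rfl
  have h4 : Real.sqrt 2 / 2 = 1 / Real.sqrt 2 := by
    rw [div_eq_div_iff (by norm_num) (by positivity), Real.mul_self_sqrt (by norm_num), one_mul]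
  have h3 : H295SI.RS (Real.sqrt 2) 0 = R0 := by
    unfold H295SI.RS R0
    have hs : Real.sqrt 2 ^ 2 = 2 := Real.sq_sqrt (by norm_num)
    rw [if_pos (by norm_num), hs, h4]
    simp only [abs_zero, sub_zero, mul_zero, Real.cos_zero, mul_one]
    ring
  have h5 : H295SI.cc 1 = H370.cMTinv := by
    unfold H295SI.cc H370.cMTinv
    rfl
  rw [mul_one, h5] at h2
  unfold c H295Iso.c0 H295SI.cR
  unfold H295SI.cR at h2
  rw [h3] at h2 ⊢
  rw [h1, ← h2]
  ring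

theorem p_eq {h : ℝ} (hh : 0 < h) (a : ℝ) : p h a = Pool.Agent.H24R3.PairsShort.pd h a := by
  unfold p Pool.Agent.H24R3.PairsShort.pd
  rw [c_eq hh, K_eq]

theorem Ns_eq (r : ℕ) (T H : ℝ) (a b : Fin r → ℝ) :
    Pool.Agent.H24R3.TupShort.NK r T H a b = Ns r T H a b := rfl

theorem Nk_eq (r : ℕ) (T : ℝ) (a b : Fin r → ℝ) :
    Pool.Agent.H24R3.TupShort.Nk r T a b = Nk r T a b := rfl

/-- On the Riemann hypothesis: lower bounds for the number of tuples in boxes that contain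
`[α, β]^(k-1)`, `α > 0`. -/
theorem result (RH : RiemannHypothesis) (r : ℕ) (hr : 1 ≤ r) :
    (∀ h ρ α β ε : ℝ, 0 < h → h ≤ 1 → 0 < ρ → h * ρ ≤ 1 / 3 → 0 < α → 0 < β → 0 < ε →
      ∃ T₀ : ℝ, ∀ T : ℝ, T₀ ≤ T → ∀ H : ℝ, T ^ h ≤ H → H ≤ T →
        ∀ a b : Fin r → ℝ, (∀ i, a i ≤ α) → (∀ i, β ≤ b i) →
          (r.factorial : ℝ) * (p h ρ - ((r : ℝ) + ⌈α / ρ⌉₊ - 1) / β - ε) *
            (H / (2 * Real.pi) * Real.log T) ≤ (Ns r T H a b : ℝ)) ∧
    (∀ α β : ℝ, 0 < α → 2 * ((r : ℝ) + ⌈3 * α⌉₊ - 1) ≤ β →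
      ∃ η κ : ℝ, 0 < η ∧ η < 1 ∧ 0 < κ ∧ ∃ T₀ : ℝ, ∀ T : ℝ, T₀ ≤ T → ∀ H : ℝ,
        T ^ (1 - η) ≤ H → H ≤ T → ∀ a b : Fin r → ℝ, (∀ i, a i ≤ α) → (∀ i, β ≤ b i) →
          κ * (H / (2 * Real.pi) * Real.log T) ≤ (Ns r T H a b : ℝ)) ∧
    (∀ α β : ℝ, 0 < α → 2 * ((r : ℝ) + ⌈3 * α⌉₊ - 1) < β →
      ∃ κ : ℝ, 0 < κ ∧ ∃ T₀ : ℝ, ∀ T : ℝ, T₀ ≤ T →
        ∀ a b : Fin r → ℝ, (∀ i, a i ≤ α) → (∀ i, β ≤ b i) →
          κ * (T / (2 * Real.pi) * Real.log T) ≤ (Nk r T a b : ℝ)) := by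
  have hRH : ∀ s : ℂ, riemannZeta s = 0 → 0 < s.re → s.re < 1 → s.re = 1 / 2 := by
    intro s h0 h1 h2
    apply RH s h0
    · rintro ⟨k, hk⟩
      have := congrArg Complex.re hk
      simp at this
      have hk0 : (0 : ℝ) ≤ k := Nat.cast_nonneg k
      linarith
    · intro h; rw [h] at h2; simp at h2
  refine ⟨?_, ?_, ?_⟩
  · intro h ρ α β ε hh hh1 hρ hhρ hα hβ hε
    obtain ⟨T0, -, h1⟩ := Pool.Agent.H24R3.TupShort.tuples hRH hh hh1 hρ hhρ hα hβ hε r hr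
    refine ⟨T0, fun T hT H hH hHT a b ha hb => ?_⟩
    rw [p_eq hh]
    exact h1 T hT H hH hHT a b ha hb
  · intro α β hα hβ
    obtain ⟨η, κ, h0, h1, h2, T0, -, h3⟩ :=
      Pool.Agent.H24R3.TupShort.tuples_one hRH hα r hr hβ
    exact ⟨η, κ, h0, h1, h2, T0, h3⟩
  · intro α β hα hβ
    exact Pool.Agent.H24R3.TupShort.tuples_all hRH hα r hr hβ

end Pool.Agent.Results.MP_67227b_nt.BoxesOffDiagonal
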